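import Pool.Agent.Helper29.SF.Core
import Pool.Agent.Helper59.HD5.Nec
import Pool.Agent.Helper59.HD5.Cls
import Pool.Agent.Helper75.SF.NoThree

/-!
# Indecomposable configurations of rank at least five with circuits of size at most five
-/

namespace Pool.Agent.Helper29.SF

open Pool.Agent.Helper59.HD Pool.Agent.Helper59.HD5 Pool.Agent.Helper75.SF

variable {V : Type} [AddCommGroup V] [Module ℝ V]

/-- Indecomposable symmetric configurations of rank at least five with circuits of size at most
five. -/
theorem big_piece [FiniteDimensional ℝ V] (E : Set V) (hE : ∀ f ∈ E, -f ∈ E)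
    (T : Submodule ℝ V) (hspan : Submodule.span ℝ {f | f ∈ E ∧ f ∈ T} = T)
    (hI : Indec ⊥ T {f | f ∈ E ∧ f ∈ T}) (hmax : MaxC 5 {f | f ∈ E ∧ f ∈ T})
    (h5 : 5 ≤ Module.finrank ℝ T) : HasPieces 4 T {f | f ∈ E ∧ f ∈ T} := by
  classical
  by_cases hex : ∃ k : V →₀ ℝ, Circ ⊥ k ∧ (∀ y, k y ≠ 0 → y ∈ {f | f ∈ E ∧ f ∈ T}) ∧
      k.support.card = 5
  · obtain ⟨gC, hC, hCS, hC5⟩ := hex
    have hspan' : ⊥ ⊔ spn {f | f ∈ E ∧ f ∈ T} = T := by rw [bot_sup_eq, spn_eq_span, hspan]
    have hbig : ∀ k, Circ ⊥ k → (∀ y, k y ≠ 0 → y ∈ {f | f ∈ E ∧ f ∈ T}) →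
        k.support.card ≤ gC.support.card := by
      intro k h1 h2
      rw [hC5]
      exact hmax k h1 h2
    set L : Submodule ℝ V := ⊥ ⊔ spn {y | gC y ≠ 0} with hL
    have hLT : L ≤ T := by
      apply sup_le bot_le
      rw [spn_eq_span, Submodule.span_le]
      intro y hy
      exact (hCS y hy).2
    have hcontr := contract ⊥ T {f | f ∈ E ∧ f ∈ T} hspan' hI gC.support.card hbig gC hC hCS rfl
      (by omega)
    obtain ⟨c, hQ⟩ := quint_of_circ hC hCS hC5
    have hLspan : L ⊔ spn {f | f ∈ E ∧ f ∈ T} = T := by
      apply le_antisymm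
      · apply sup_le hLT
        rw [spn_eq_span, Submodule.span_le]
        intro y hy
        exact hy.2
      · conv_lhs => rw [← hspan']
        exact sup_le_sup_right bot_le _
    have hc3 : ∀ k, Circ L k → (∀ y, k y ≠ 0 → y ∈ {f | f ∈ E ∧ f ∈ T}) →
        k.support.card ≤ 3 := by
      intro k hk hkS
      have := hcontr k hk hkS
      rw [hC5] at this
      exact this.trans (by norm_num)
    have hc2 := no_three hmax hQ (fun f hf => hf.2) hspan hI hc3
    obtain ⟨ι, β, hι, hβ, b, blk, le, hle, hsz, hdrop, hind, hsp, hcov⟩ :=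
      forest E hE _ L T 2 hLT rfl hLspan (by norm_num) hc2
    have hcov' : ∀ f ∈ {f | f ∈ E ∧ f ∈ T}, f ∈ L ∨ ∃ j, f ∈ L ⊔ Submodule.span ℝ {b j} := by
      intro f hf
      rcases hcov f hf with h' | ⟨x, hx⟩
      · exact Or.inl h'
      · right
        have h1 := hsz x
        have h2 : (blk ⁻¹' {x}).ncard = 1 := by omega
        obtain ⟨j, hj⟩ := Set.ncard_eq_one.1 h2
        refine ⟨j, ?_⟩
        have h3 : {j | le (blk j) x} ⊆ {j} := by
          intro i hi
          have h4 : blk i = x := by
            by_contra hne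
            have := hdrop _ _ hi hne
            have := hsz (blk i)
            omega
          rw [← hj]
          exact h4
        exact (sup_le_sup_left (Submodule.span_mono ((Set.image_mono h3).trans
          (by rw [Set.image_singleton]))) L) hx
    obtain ⟨F, F', hCl⟩ := exists_cls hQ (fun f hf => hf.2) hspan hI b hind hsp hcov'
    have hj0 : Nonempty ι := by
      by_contra hcon
      rw [not_nonempty_iff] at hcon
      rw [Set.range_eq_empty, Submodule.span_empty, sup_bot_eq] at hsp
      have hL4 : Module.finrank ℝ L ≤ 4 := by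
        have h1 : L ≤ Submodule.span ℝ (({c 0, c 1, c 2, c 3} : Finset V) : Set V) := by
          intro w hw
          obtain ⟨x, hx⟩ := hQ.span w hw
          have h2 := hQ.shift hx (x 4)
          rw [sub_self, zero_smul, add_zero] at h2
          rw [h2]
          have m0 : c 0 ∈ Submodule.span ℝ (({c 0, c 1, c 2, c 3} : Finset V) : Set V) :=
            Submodule.subset_span (by simp)
          have m1 : c 1 ∈ Submodule.span ℝ (({c 0, c 1, c 2, c 3} : Finset V) : Set V) :=
            Submodule.subset_span (by simp)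
          have m2 : c 2 ∈ Submodule.span ℝ (({c 0, c 1, c 2, c 3} : Finset V) : Set V) :=
            Submodule.subset_span (by simp)
          have m3 : c 3 ∈ Submodule.span ℝ (({c 0, c 1, c 2, c 3} : Finset V) : Set V) :=
            Submodule.subset_span (by simp)
          exact Submodule.add_mem _ (Submodule.add_mem _ (Submodule.add_mem _
            (Submodule.smul_mem _ _ m0) (Submodule.smul_mem _ _ m1)) (Submodule.smul_mem _ _ m2))
            (Submodule.smul_mem _ _ m3)
        exact (Submodule.finrank_mono h1).trans ((finrank_spn_le _).trans Finset.card_le_four)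
      rw [hsp] at hL4
      omega
    exact core hmax hQ hCl
  · have hmax4 : MaxFour {f | f ∈ E ∧ f ∈ T} := by
      intro k hk hkS
      have h1 := hmax k hk hkS
      by_contra hne
      exact hex ⟨k, hk, hkS, by omega⟩
    exact has_of_star (by norm_num) (star_of_indec E hE T hspan hI hmax4 (by omega))

end Pool.Agent.Helper29.SF

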