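import Pool.Agent.Helper29.SF.Defs

/-!
# Circuits of size at most five: relations between pairs, lifting
-/

namespace Pool.Agent.Helper29.SF

open Pool.Agent.Helper59.HD Pool.Agent.Helper59.HD5

variable {V : Type} [AddCommGroup V] [Module ℝ V]

/-- A relation between differences of pairs and elements in `L`: weight at most five. -/
theorem pairs {S : Set V} (hmax : MaxC 5 S) {L : Submodule ℝ V} {κ J : Type} [Fintype κ]
    [Fintype J] (f f' : κ → V) (hf : ∀ k, f k ∈ Gs S) (hf' : ∀ k, f' k ∈ Gs S)
    (hfL : ∀ k, f k - f' k ∈ L) (hind : ∀ s : κ → ℝ, ∑ k, s k • f k ∈ L → s = 0)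
    (v : J → V) (hv : ∀ j, v j ∈ Gs S) (hvL : ∀ j, v j ∈ L)
    (s : κ → ℝ) (hs : ∀ k, s k ≠ 0) (y : J → ℝ) (hy : ∀ j, y j ≠ 0)
    (hrel : ∑ k, s k • (f k - f' k) + ∑ j, y j • v j = 0)
    (hmin : ∀ (s' : κ → ℝ) (y' : J → ℝ), ∑ k, s' k • (f k - f' k) + ∑ j, y' j • v j = 0 →
      ∃ t : ℝ, s' = t • s ∧ y' = t • y) :
    2 * Fintype.card κ + Fintype.card J ≤ 5 := by
  have h1 := circ_fam (S := S) (c := 5) (by norm_num) hmax (ι := κ ⊕ (κ ⊕ J))
    (Sum.elim f (Sum.elim f' v)) (by
      rintro (k | k | j)
      · exact hf k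
      · exact hf' k
      · exact hv j) (Sum.elim s (Sum.elim (fun k => -s k) y)) (by
      rintro (k | k | j)
      · exact hs k
      · exact neg_ne_zero.2 (hs k)
      · exact hy j) (by
      rw [Fintype.sum_sum_type, Fintype.sum_sum_type]
      simp only [Sum.elim_inl, Sum.elim_inr]
      rw [← hrel, ← add_assoc, ← Finset.sum_add_distrib]
      congr 1
      refine Finset.sum_congr rfl (fun k _ => ?_)
      rw [smul_sub, neg_smul]
      abel) (by
      intro z hz
      rw [Fintype.sum_sum_type, Fintype.sum_sum_type] at hz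
      simp only [Sum.elim_inl, Sum.elim_inr] at hz
      have h2 : (fun k => z (Sum.inl k) + z (Sum.inr (Sum.inl k))) = 0 := by
        apply hind
        have e : ∑ k, (z (Sum.inl k) + z (Sum.inr (Sum.inl k))) • f k =
            ∑ k, z (Sum.inr (Sum.inl k)) • (f k - f' k) -
              ∑ j, z (Sum.inr (Sum.inr j)) • v j := by
          have e1 : ∑ k, (z (Sum.inl k) + z (Sum.inr (Sum.inl k))) • f k =
              ∑ k, z (Sum.inl k) • f k + ∑ k, z (Sum.inr (Sum.inl k)) • f k := by
            rw [← Finset.sum_add_distrib]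
            exact Finset.sum_congr rfl (fun k _ => add_smul _ _ _)
          have e2 : ∑ k, z (Sum.inr (Sum.inl k)) • (f k - f' k) =
              ∑ k, z (Sum.inr (Sum.inl k)) • f k - ∑ k, z (Sum.inr (Sum.inl k)) • f' k := by
            rw [← Finset.sum_sub_distrib]
            exact Finset.sum_congr rfl (fun k _ => smul_sub _ _ _)
          have e3 : ∑ k, z (Sum.inl k) • f k = -(∑ k, z (Sum.inr (Sum.inl k)) • f' k +
              ∑ j, z (Sum.inr (Sum.inr j)) • v j) := by
            rw [eq_neg_iff_add_eq_zero]
            exact hz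
          rw [e1, e2, e3]
          abel
        rw [e]
        exact L.sub_mem (L.sum_mem (fun k _ => L.smul_mem _ (hfL k)))
          (L.sum_mem (fun j _ => L.smul_mem _ (hvL j)))
      have h3 : ∀ k, z (Sum.inr (Sum.inl k)) = -z (Sum.inl k) := by
        intro k
        have := congrFun h2 k
        simp only [Pi.zero_apply] at this
        linarith
      obtain ⟨t, ht1, ht2⟩ := hmin (fun k => z (Sum.inl k)) (fun j => z (Sum.inr (Sum.inr j))) (by
        rw [← hz, ← add_assoc, ← Finset.sum_add_distrib]
        congr 1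
        refine Finset.sum_congr rfl (fun k _ => ?_)
        rw [smul_sub, h3, neg_smul]
        abel)
      refine ⟨t, ?_⟩
      ext i
      rcases i with k | k | j
      · exact congrFun ht1 k
      · rw [h3]
        have := congrFun ht1 k
        simp only [Pi.smul_apply, smul_eq_mul] at this
        rw [this]
        simp only [Pi.smul_apply, smul_eq_mul, Sum.elim_inr, Sum.elim_inl]
        ring
      · exact congrFun ht2 j)
  rw [Fintype.card_sum, Fintype.card_sum] at h1
  omega

/-- Lifting of a circuit modulo `L`. -/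
theorem lift {S : Set V} (hmax : MaxC 5 S) {L : Submodule ℝ V} {c : Fin 5 → V} (h : Quint S L c)
    {κ : Type} [Fintype κ] (f : κ → V) (hf : ∀ k, f k ∈ Gs S) (α : κ → ℝ) (hα : ∀ k, α k ≠ 0)
    (hmin : ∀ y : κ → ℝ, ∑ k, y k • f k ∈ L → ∃ t : ℝ, y = t • α)
    (x : Fin 5 → ℝ) (hx : ∑ k, α k • f k = ∑ i, x i • c i) (j : Fin 5) :
    Fintype.card κ ≤ (Finset.univ.filter (fun i => x i = x j)).card := by
  classical
  have hsub : ∀ g : Fin 5 → V, (∀ i, x i = x j → g i = 0) →
      ∑ i : {i : Fin 5 // x i ≠ x j}, g i = ∑ i, g i := by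
    intro g hg
    have h1 : ∑ i ∈ Finset.univ.filter (fun i => x i ≠ x j), g i =
        ∑ i : {i : Fin 5 // x i ≠ x j}, g i :=
      Finset.sum_subtype (Finset.univ.filter (fun i => x i ≠ x j)) (by simp) g
    rw [← h1, Finset.sum_filter]
    refine Finset.sum_congr rfl (fun i _ => ?_)
    by_cases hi : x i = x j
    · rw [if_neg (not_not.2 hi), hg i hi]
    · rw [if_pos hi]
  have h1 := circ_fam (S := S) (c := 5) (by norm_num) hmax (ι := κ ⊕ {i : Fin 5 // x i ≠ x j})
    (Sum.elim f (fun i => c i)) (by
      rintro (k | i)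
      · exact hf k
      · exact h.mem _) (Sum.elim α (fun i => -(x i - x j))) (by
      rintro (k | i)
      · exact hα k
      · exact neg_ne_zero.2 (sub_ne_zero.2 i.2)) (by
      rw [Fintype.sum_sum_type]
      simp only [Sum.elim_inl, Sum.elim_inr]
      have e1 := hsub (fun i => (-(x i - x j)) • c i) (fun i hi => by
        simp only [hi, sub_self, neg_zero, zero_smul])
      rw [hx, e1, ← Finset.sum_add_distrib]
      have e2 : ∀ i, x i • c i + (-(x i - x j)) • c i = x j • c i := by
        intro i
        rw [← add_smul]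
        congr 1
        ring
      rw [Finset.sum_congr rfl (fun i _ => e2 i), ← Finset.smul_sum, h.sum, smul_zero]) (by
      intro y hy
      rw [Fintype.sum_sum_type] at hy
      simp only [Sum.elim_inl, Sum.elim_inr] at hy
      obtain ⟨t, ht⟩ := hmin (fun k => y (Sum.inl k)) (by
        rw [eq_neg_of_add_eq_zero_left hy]
        exact L.neg_mem (L.sum_mem (fun i _ => L.smul_mem _ (h.memL _))))
      have ht' : ∀ k, y (Sum.inl k) = t * α k := fun k => congrFun ht k
      set g : Fin 5 → ℝ := fun i => if hi : x i ≠ x j then y (Sum.inr ⟨i, hi⟩) else 0 with hg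
      have hgs : ∀ i : {i : Fin 5 // x i ≠ x j}, g i = y (Sum.inr i) := by
        intro i
        rw [hg]
        simp only
        rw [dif_pos i.2]
      have e1 := hsub (fun i => g i • c i) (fun i hi => by
        simp only [hg]
        rw [dif_neg (not_not.2 hi), zero_smul])
      have e2 : ∑ i, (t * x i + g i) • c i = 0 := by
        have e3 : ∑ i, (t * x i + g i) • c i = t • ∑ i, x i • c i + ∑ i, g i • c i := by
          rw [Finset.smul_sum, ← Finset.sum_add_distrib]
          exact Finset.sum_congr rfl (fun i _ => by rw [add_smul, mul_smul])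
        rw [e3, ← e1, ← hx, ← hy, Finset.smul_sum]
        congr 1
        · exact Finset.sum_congr rfl (fun k _ => by rw [ht', mul_smul])
        · exact Finset.sum_congr rfl (fun i _ => by rw [hgs])
      have e4 := h.min _ e2
      have hgj : g j = 0 := by
        rw [hg]
        simp only
        rw [dif_neg (not_not.2 rfl)]
      refine ⟨t, ?_⟩
      ext i
      rcases i with k | i
      · exact ht' k
      · have := e4 i j
        rw [hgj, hgs] at this
        simp only [Pi.smul_apply, smul_eq_mul, Sum.elim_inr]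
        linarith)
  rw [Fintype.card_sum] at h1
  have h2 : Fintype.card {i : Fin 5 // x i ≠ x j} =
      (Finset.univ.filter (fun i => x i ≠ x j)).card := Fintype.card_subtype _
  have h3 := Finset.card_filter_add_card_filter_not (s := (Finset.univ : Finset (Fin 5)))
    (fun i => x i = x j)
  rw [Finset.card_univ, Fintype.card_fin] at h3
  have h4 : (Finset.univ.filter (fun i => x i ≠ x j)).card =
      (Finset.univ.filter (fun i => ¬ x i = x j)).card := rfl
  omega

end Pool.Agent.Helper29.SF
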