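import Pool.Agent.Helper29.SF.GateB
import Pool.Agent.Helper28.SF.Pieces

/-!
# The classification when there is a circuit of five elements and `L ≠ T`
-/

namespace Pool.Agent.Helper29.SF

open Pool.Agent.Helper59.HD Pool.Agent.Helper59.HD5 Pool.Agent.Helper28.SF

variable {V : Type} [AddCommGroup V] [Module ℝ V]

theorem perm2 : ∀ i k : Fin 5, i ≠ k → ∃ σ : Equiv.Perm (Fin 5), σ 0 = i ∧ σ 1 = k := by
  have h : ∀ i k : Fin 5, i ≠ k →
      (Equiv.swap 0 i * Equiv.swap 1 (Equiv.swap 0 i k) : Equiv.Perm (Fin 5)) 0 = i ∧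
      (Equiv.swap 0 i * Equiv.swap 1 (Equiv.swap 0 i k) : Equiv.Perm (Fin 5)) 1 = k := by
    decide
  exact fun i k hik => ⟨_, h i k hik⟩

theorem perm4 : ∀ i k : Fin 5, i ≠ k → i ≠ 0 → i ≠ 1 → k ≠ 0 → k ≠ 1 →
    ∃ σ : Equiv.Perm (Fin 5), σ 0 = 0 ∧ σ 1 = 1 ∧ σ 2 = i ∧ σ 3 = k := by
  have h : ∀ i k : Fin 5, i ≠ k → i ≠ 0 → i ≠ 1 → k ≠ 0 → k ≠ 1 →
      (Equiv.swap 2 i * Equiv.swap 3 (Equiv.swap 2 i k) : Equiv.Perm (Fin 5)) 0 = 0 ∧
      (Equiv.swap 2 i * Equiv.swap 3 (Equiv.swap 2 i k) : Equiv.Perm (Fin 5)) 1 = 1 ∧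
      (Equiv.swap 2 i * Equiv.swap 3 (Equiv.swap 2 i k) : Equiv.Perm (Fin 5)) 2 = i ∧
      (Equiv.swap 2 i * Equiv.swap 3 (Equiv.swap 2 i k) : Equiv.Perm (Fin 5)) 3 = k := by
    decide
  exact fun i k h1 h2 h3 h4 h5 => ⟨_, h i k h1 h2 h3 h4 h5⟩

theorem Quint.shift {S : Set V} {L : Submodule ℝ V} {c : Fin 5 → V} (h : Quint S L c)
    {f : V} {x : Fin 5 → ℝ} (hx : f = ∑ i, x i • c i) (v : ℝ) :
    f = (x 0 - v) • c 0 + (x 1 - v) • c 1 + (x 2 - v) • c 2 + (x 3 - v) • c 3 +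
      (x 4 - v) • c 4 := by
  have e2 : ∑ l, (x l - v) • c l = ∑ l, x l • c l - v • ∑ l, c l := by
    rw [Finset.smul_sum, ← Finset.sum_sub_distrib]
    exact Finset.sum_congr rfl (fun l _ => sub_smul _ _ _)
  rw [h.sum, smul_zero, sub_zero, ← hx, Fin.sum_univ_five] at e2
  exact e2.symm

/-- The gates of two classes are equal or disjoint. -/
theorem avoid {S : Set V} (hmax : MaxC 5 S) {L T : Submodule ℝ V} {c : Fin 5 → V}
    (h : Quint S L c) {ι : Type} [Fintype ι] {F F' : ι → V} (hC : Cls S L T F F') {j0 j : ι}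
    (hj : j ≠ j0) {p q i k : Fin 5} (hpq : p ≠ q) (hik : i ≠ k) (hG0 : Gt c F F' j0 p q)
    (hG : Gt c F F' j i k) (hn : ¬ Gt c F F' j p q) : i ≠ p ∧ i ≠ q ∧ k ≠ p ∧ k ≠ q := by
  refine ⟨?_, ?_, ?_, ?_⟩
  · rintro rfl
    have hk : k ≠ q := by
      rintro rfl
      exact hn hG
    exact gate_share hmax h hC (Ne.symm hj) hpq hik (Ne.symm hk) hG0 hG
  · rintro rfl
    have hk : k ≠ p := by
      rintro rfl
      exact hn hG.symm
    exact gate_share hmax h hC (Ne.symm hj) (Ne.symm hpq) hik (Ne.symm hk) hG0.symm hG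
  · rintro rfl
    have hk : i ≠ q := by
      rintro rfl
      exact hn hG.symm
    exact gate_share hmax h hC (Ne.symm hj) hpq (Ne.symm hik) (Ne.symm hk) hG0 hG.symm
  · rintro rfl
    have hk : i ≠ p := by
      rintro rfl
      exact hn hG
    exact gate_share hmax h hC (Ne.symm hj) (Ne.symm hpq) (Ne.symm hik) (Ne.symm hk) hG0.symm
      hG.symm

/-- Two different gates. -/
theorem core_two {S : Set V} (hmax : MaxC 5 S) {L T : Submodule ℝ V} {c : Fin 5 → V}
    (h : Quint S L c) {ι : Type} [Fintype ι] {F F' : ι → V}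
    (hC : Cls S L T F F') {j0 j1 : ι} (h0 : Gt c F F' j0 0 1) (h1 : Gt c F F' j1 2 3) :
    HasPieces 4 T S := by
  apply piece_c h hC {j | Gt c F F' j 0 1}
  · intro j hj f hf hfj
    exact gate_same hmax h hC j (by decide) hj hf hfj
  · intro j hj f hf hfj
    have hj' : ¬ Gt c F F' j 0 1 := hj
    have h2 : Gt c F F' j 2 3 := by
      by_contra hn
      obtain ⟨i, k, hik, hG⟩ := gate_ex hmax h hC j
      have hj0 : j ≠ j0 := by
        rintro rfl
        exact hj' h0
      have hj1 : j ≠ j1 := by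
        rintro rfl
        exact hn h1
      obtain ⟨a1, a2, a3, a4⟩ := avoid hmax h hC hj0 (by decide) hik h0 hG hj'
      obtain ⟨b1, b2, b3, b4⟩ := avoid hmax h hC hj1 (by decide) hik h1 hG hn
      have : ∀ i k : Fin 5, i ≠ k → i ≠ 0 → i ≠ 1 → k ≠ 0 → k ≠ 1 → i ≠ 2 → i ≠ 3 → k ≠ 2 →
          k ≠ 3 → False := by decide
      exact this i k hik a1 a2 a3 a4 b1 b2 b3 b4
    exact gate_same hmax h hC j (by decide) h2 hf hfj
  · intro f hf hfL x hx
    have hs := h.shift hx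
    have r1 := inside hmax h hC j0 (m := 0) (m' := 1) (n := 2) (n' := 3) (n'' := 4) (by decide)
      (by decide) (by decide) (by decide) (by decide) (by decide) (by decide) (by decide)
      (by decide) (by decide) h0 hf hfL x hs
    have r2 := inside hmax h hC j1 (m := 2) (m' := 3) (n := 0) (n' := 1) (n'' := 4) (by decide)
      (by decide) (by decide) (by decide) (by decide) (by decide) (by decide) (by decide)
      (by decide) (by decide) h1 hf hfL x (fun v => by rw [hs v]; abel)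
    rcases r1 with r1 | r1
    · rcases r2 with r2 | r2
      · exact Or.inl ⟨r1, r2⟩
      · exact Or.inr (Or.inr r2)
    · exact Or.inr (Or.inl r1)

theorem core_one {S : Set V} (hmax : MaxC 5 S) {L T : Submodule ℝ V} {c : Fin 5 → V}
    (h : Quint S L c) {ι : Type} [Fintype ι] {F F' : ι → V}
    (hC : Cls S L T F F') {j0 : ι} (h0 : Gt c F F' j0 0 1) : HasPieces 4 T S := by
  by_cases hall : ∀ j, Gt c F F' j 0 1
  · apply piece_b h hC
    · intro j f hf hfj
      exact gate_same hmax h hC j (by decide) (hall j) hf hfj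
    · intro f hf hfL x hx
      exact inside hmax h hC j0 (m := 0) (m' := 1) (n := 2) (n' := 3) (n'' := 4) (by decide)
        (by decide) (by decide) (by decide) (by decide) (by decide) (by decide) (by decide)
        (by decide) (by decide) h0 hf hfL x (h.shift hx)
  · push Not at hall
    obtain ⟨j1, hj1⟩ := hall
    obtain ⟨i, k, hik, hG⟩ := gate_ex hmax h hC j1
    have hne : j1 ≠ j0 := by
      rintro rfl
      exact hj1 h0
    obtain ⟨a1, a2, a3, a4⟩ := avoid hmax h hC hne (by decide) hik h0 hG hj1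
    obtain ⟨σ, s0, s1, s2, s3⟩ := perm4 i k hik a1 a2 a3 a4
    apply core_two hmax (h.perm σ) hC (j0 := j0) (j1 := j1)
    · show Gt c F F' j0 (σ 0) (σ 1)
      rw [s0, s1]
      exact h0
    · show Gt c F F' j1 (σ 2) (σ 3)
      rw [s2, s3]
      exact hG

/-- The classification in the presence of a circuit of five elements. -/
theorem core {S : Set V} (hmax : MaxC 5 S) {L T : Submodule ℝ V} {c : Fin 5 → V}
    (h : Quint S L c) {ι : Type} [Fintype ι] [Nonempty ι] {F F' : ι → V}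
    (hC : Cls S L T F F') : HasPieces 4 T S := by
  obtain ⟨j0⟩ := (inferInstance : Nonempty ι)
  obtain ⟨i, k, hik, hG⟩ := gate_ex hmax h hC j0
  obtain ⟨σ, s0, s1⟩ := perm2 i k hik
  apply core_one hmax (h.perm σ) hC (j0 := j0)
  show Gt c F F' j0 (σ 0) (σ 1)
  rw [s0, s1]
  exact hG

end Pool.Agent.Helper29.SF
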