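import Pool.Agent.Helper59.HD5.Defs
import Pool.Agent.Helper59.HD.PForest

/-!
# Configurations with circuits of size at most five: definitions (MP_541d70_co)
-/

namespace Pool.Agent.Helper29.SF

open Pool.Agent.Helper59.HD Pool.Agent.Helper59.HD5

variable {V : Type} [AddCommGroup V] [Module ℝ V]

/-- Five vectors with exactly one relation, spanning `L`. -/
structure Quint (S : Set V) (L : Submodule ℝ V) (c : Fin 5 → V) : Prop where
  mem : ∀ i, c i ∈ Gs S
  memL : ∀ i, c i ∈ L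
  sum : ∑ i, c i = 0
  min : ∀ y : Fin 5 → ℝ, ∑ i, y i • c i = 0 → ∀ i j, y i = y j
  span : ∀ w ∈ L, ∃ x : Fin 5 → ℝ, w = ∑ i, x i • c i

/-- The classes modulo `L` of the vectors outside `L`: they are independent, every class contains
two different vectors `F j`, `F' j`. -/
structure Cls {ι : Type} [Fintype ι] (S : Set V) (L T : Submodule ℝ V) (F F' : ι → V) : Prop where
  memF : ∀ j, F j ∈ Gs S
  memF' : ∀ j, F' j ∈ Gs S
  ind : ∀ s : ι → ℝ, ∑ j, s j • F j ∈ L → s = 0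
  diff : ∀ j, F' j - F j ∈ L
  ne : ∀ j, F' j ≠ F j
  span : L ⊔ Submodule.span ℝ (Set.range F) = T
  cov : ∀ f ∈ S, f ∈ L ∨ ∃ j, ∃ t : ℝ, t ≠ 0 ∧ t • f - F j ∈ L

/-- The gate of the class `j` is the pair `{i, k}`. -/
def Gt {ι : Type} (c : Fin 5 → V) (F F' : ι → V) (j : ι) (i k : Fin 5) : Prop :=
  ∃ a : ℝ, a ≠ 0 ∧ F' j - F j = a • (c i + c k)

theorem Quint.perm {S : Set V} {L : Submodule ℝ V} {c : Fin 5 → V} (h : Quint S L c)
    (σ : Equiv.Perm (Fin 5)) : Quint S L (fun i => c (σ i)) := by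
  refine ⟨fun i => h.mem _, fun i => h.memL _, ?_, fun y hy i j => ?_, fun w hw => ?_⟩
  · rw [Equiv.sum_comp σ c]
    exact h.sum
  · have h1 : ∑ i, y (σ.symm i) • c i = 0 := by
      rw [← Equiv.sum_comp σ (fun i => y (σ.symm i) • c i)]
      simp only [Equiv.symm_apply_apply]
      exact hy
    have h2 := h.min _ h1 (σ i) (σ j)
    simpa using h2
  · obtain ⟨x, hx⟩ := h.span w hw
    refine ⟨fun i => x (σ i), ?_⟩
    rw [hx, ← Equiv.sum_comp σ (fun i => x i • c i)]

end Pool.Agent.Helper29.SF
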