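import Pool.Agent.Helper29.SF.Defs

/-!
# Frames (statements with `sorry`, never imported by a hand-in)
-/

namespace Pool.Agent.Helper29.SF.Fr

open Pool.Agent.Helper59.HD Pool.Agent.Helper59.HD5 Pool.Agent.Helper29.SF

variable {V : Type} [AddCommGroup V] [Module ℝ V]

/-- A1. A relation between differences of pairs and elements in `L`: weight at most five. -/
theorem pairs {S : Set V} (hmax : MaxC 5 S) {L : Submodule ℝ V} {κ J : Type} [Fintype κ]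
    [Fintype J] (f f' : κ → V) (hf : ∀ k, f k ∈ Gs S) (hf' : ∀ k, f' k ∈ Gs S)
    (hfL : ∀ k, f k - f' k ∈ L) (hind : ∀ s : κ → ℝ, ∑ k, s k • f k ∈ L → s = 0)
    (v : J → V) (hv : ∀ j, v j ∈ Gs S) (hvL : ∀ j, v j ∈ L)
    (s : κ → ℝ) (hs : ∀ k, s k ≠ 0) (y : J → ℝ) (hy : ∀ j, y j ≠ 0)
    (hrel : ∑ k, s k • (f k - f' k) + ∑ j, y j • v j = 0)
    (hmin : ∀ (s' : κ → ℝ) (y' : J → ℝ), ∑ k, s' k • (f k - f' k) + ∑ j, y' j • v j = 0 →
      ∃ t : ℝ, s' = t • s ∧ y' = t • y) (h1 : 1 ≤ Fintype.card κ) :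
    2 * Fintype.card κ + Fintype.card J ≤ 5 := by
  sorry

/-- A2. Lifting of a circuit modulo `L`. -/
theorem lift {S : Set V} (hmax : MaxC 5 S) {L : Submodule ℝ V} {c : Fin 5 → V} (h : Quint S L c)
    {κ : Type} [Fintype κ] (f : κ → V) (hf : ∀ k, f k ∈ Gs S) (α : κ → ℝ) (hα : ∀ k, α k ≠ 0)
    (hmin : ∀ y : κ → ℝ, ∑ k, y k • f k ∈ L → ∃ t : ℝ, y = t • α)
    (x : Fin 5 → ℝ) (hx : ∑ k, α k • f k = ∑ i, x i • c i) (j : Fin 5) :
    Fintype.card κ ≤ (Finset.univ.filter (fun i => x i = x j)).card := by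
  sorry

/-- B. No circuits of size three modulo `L`. -/
theorem no_three {S : Set V} (hmax : MaxC 5 S) {L T : Submodule ℝ V} {c : Fin 5 → V}
    (h : Quint S L c) (hST : ∀ f ∈ S, f ∈ T) (hspan : Submodule.span ℝ S = T)
    (hI : Indec ⊥ T S)
    (hc3 : ∀ k, Circ L k → (∀ y, k y ≠ 0 → y ∈ S) → k.support.card ≤ 3) :
    ∀ k, Circ L k → (∀ y, k y ≠ 0 → y ∈ S) → k.support.card ≤ 2 := by
  sorry

/-- C1. All gates are equal. -/
theorem piece_b {S : Set V} {L T : Submodule ℝ V} {c : Fin 5 → V} (h : Quint S L c)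
    {ι : Type} [Fintype ι] {F F' : ι → V} (hC : Cls S L T F F')
    (hF : ∀ j f, f ∈ Gs S → f - F j ∈ L → ∃ t : ℝ, f - F j = t • (c 0 + c 1))
    (hin : ∀ f ∈ Gs S, f ∈ L → ∀ x : Fin 5 → ℝ, f = ∑ i, x i • c i →
      x 0 = x 1 ∨ (x 2 = x 3 ∧ x 3 = x 4)) : HasPieces 4 T S := by
  sorry

/-- C2. Two gates. -/
theorem piece_c {S : Set V} {L T : Submodule ℝ V} {c : Fin 5 → V} (h : Quint S L c)
    {ι : Type} [Fintype ι] {F F' : ι → V} (hC : Cls S L T F F') (A : Set ι)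
    (hA : ∀ j ∈ A, ∀ f, f ∈ Gs S → f - F j ∈ L → ∃ t : ℝ, f - F j = t • (c 0 + c 1))
    (hA' : ∀ j, j ∉ A → ∀ f, f ∈ Gs S → f - F j ∈ L → ∃ t : ℝ, f - F j = t • (c 2 + c 3))
    (hin : ∀ f ∈ Gs S, f ∈ L → ∀ x : Fin 5 → ℝ, f = ∑ i, x i • c i →
      (x 0 = x 1 ∧ x 2 = x 3) ∨ (x 2 = x 3 ∧ x 3 = x 4) ∨ (x 0 = x 1 ∧ x 1 = x 4)) :
    HasPieces 4 T S := by
  sorry

/-- D1. Every class has a gate. -/
theorem gate_ex {S : Set V} (hmax : MaxC 5 S) {L T : Submodule ℝ V} {c : Fin 5 → V}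
    (h : Quint S L c) {ι : Type} [Fintype ι] {F F' : ι → V} (hC : Cls S L T F F') (j : ι) :
    ∃ i k : Fin 5, i ≠ k ∧ Gt c F F' j i k := by
  sorry

/-- D2. All differences in a class are on the line of the gate. -/
theorem gate_same {S : Set V} (hmax : MaxC 5 S) {L T : Submodule ℝ V} {c : Fin 5 → V}
    (h : Quint S L c) {ι : Type} [Fintype ι] {F F' : ι → V} (hC : Cls S L T F F') (j : ι)
    {i k : Fin 5} (hik : i ≠ k) (hG : Gt c F F' j i k) {f : V} (hf : f ∈ Gs S)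
    (hfj : f - F j ∈ L) : ∃ t : ℝ, f - F j = t • (c i + c k) := by
  sorry

/-- D3. Gates of different classes do not share exactly one index. -/
theorem gate_share {S : Set V} (hmax : MaxC 5 S) {L T : Submodule ℝ V} {c : Fin 5 → V}
    (h : Quint S L c) {ι : Type} [Fintype ι] {F F' : ι → V} (hC : Cls S L T F F') {j j' : ι}
    (hj : j ≠ j') {i k l : Fin 5} (hik : i ≠ k) (hil : i ≠ l) (hkl : k ≠ l)
    (hG : Gt c F F' j i k) (hG' : Gt c F F' j' i l) : False := by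
  sorry

/-- D4. The elements in `L`. -/
theorem inside {S : Set V} (hmax : MaxC 5 S) {L T : Submodule ℝ V} {c : Fin 5 → V}
    (h : Quint S L c) {ι : Type} [Fintype ι] {F F' : ι → V} (hC : Cls S L T F F') (j : ι)
    (hG : Gt c F F' j 0 1) {f : V} (hf : f ∈ Gs S) (hfL : f ∈ L) (x : Fin 5 → ℝ)
    (hx : f = ∑ i, x i • c i) : x 0 = x 1 ∨ (x 2 = x 3 ∧ x 3 = x 4) := by
  sorry

/-- E. -/
theorem core {S : Set V} (hmax : MaxC 5 S) {L T : Submodule ℝ V} {c : Fin 5 → V}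
    (h : Quint S L c) {ι : Type} [Fintype ι] [Nonempty ι] {F F' : ι → V}
    (hC : Cls S L T F F') : HasPieces 4 T S := by
  sorry

/-- F1. The classes, every one with two different elements. -/
theorem exists_cls {S : Set V} {L T : Submodule ℝ V} {c : Fin 5 → V}
    (h : Quint S L c) (hST : ∀ f ∈ S, f ∈ T) (hspan : Submodule.span ℝ S = T)
    (hI : Indec ⊥ T S) {ι : Type} [Fintype ι] (b : ι → V)
    (hind : ∀ c : ι → ℝ, ∑ i, c i • b i ∈ L → c = 0)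
    (hTb : L ⊔ Submodule.span ℝ (Set.range b) = T)
    (hcov : ∀ f ∈ S, f ∈ L ∨ ∃ j, f ∈ L ⊔ Submodule.span ℝ {b j}) :
    ∃ F F' : ι → V, Cls S L T F F' := by
  sorry

/-- F2. A circuit with five elements gives a `Quint`. -/
theorem quint_of_circ {S : Set V} {g : V →₀ ℝ} (hg : Circ ⊥ g) (hgS : ∀ y, g y ≠ 0 → y ∈ S)
    (h5 : g.support.card = 5) : ∃ c : Fin 5 → V, Quint S (⊥ ⊔ spn {y | g y ≠ 0}) c := by
  sorry

end Pool.Agent.Helper29.SF.Fr
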