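import Pool.Agent.Helper29.SF.Circ5

/-!
# The gates of the classes
-/

namespace Pool.Agent.Helper29.SF

open Pool.Agent.Helper59.HD Pool.Agent.Helper59.HD5

variable {V : Type} [AddCommGroup V] [Module ℝ V]

theorem ex_fifth (i k l m : Fin 5) : ∃ n, n ≠ i ∧ n ≠ k ∧ n ≠ l ∧ n ≠ m := by
  classical
  have h1 : (({i, k, l, m} : Finset (Fin 5))).card < (Finset.univ : Finset (Fin 5)).card := by
    have := Finset.card_le_four (a := i) (b := k) (c := l) (d := m)
    rw [Finset.card_univ, Fintype.card_fin]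
    omega
  obtain ⟨n, _, hn⟩ := Finset.exists_mem_notMem_of_card_lt_card h1
  simp only [Finset.mem_insert, Finset.mem_singleton, not_or] at hn
  exact ⟨n, hn.1, hn.2.1, hn.2.2.1, hn.2.2.2⟩

theorem Quint.ind4 {S : Set V} {L : Submodule ℝ V} {c : Fin 5 → V} (h : Quint S L c)
    {i k l m : Fin 5} (hik : i ≠ k) (hil : i ≠ l) (him : i ≠ m) (hkl : k ≠ l) (hkm : k ≠ m)
    (hlm : l ≠ m) {r s t u : ℝ} (e : r • c i + s • c k + t • c l + u • c m = 0) :
    r = 0 ∧ s = 0 ∧ t = 0 ∧ u = 0 := by
  classical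
  obtain ⟨n, n1, n2, n3, n4⟩ := ex_fifth i k l m
  have h1 := h.min (Pi.single i r + Pi.single k s + Pi.single l t + Pi.single m u) (by
    rw [← e]
    simp only [Pi.add_apply, add_smul, Finset.sum_add_distrib, Pi.single_apply, ite_smul,
      zero_smul, Finset.sum_ite_eq', Finset.mem_univ, if_true])
  have hn : (Pi.single i r + Pi.single k s + Pi.single l t + Pi.single m u : Fin 5 → ℝ) n = 0 := by
    simp only [Pi.add_apply, Pi.single_apply, if_neg n1, if_neg n2, if_neg n3, if_neg n4, add_zero]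
  refine ⟨?_, ?_, ?_, ?_⟩
  · have h2 := h1 i n
    rw [hn] at h2
    simpa [Pi.single_apply, hik, hil, him] using h2
  · have h2 := h1 k n
    rw [hn] at h2
    simpa [Pi.single_apply, hik.symm, hkl, hkm] using h2
  · have h2 := h1 l n
    rw [hn] at h2
    simpa [Pi.single_apply, hil.symm, hkl.symm, hlm] using h2
  · have h2 := h1 m n
    rw [hn] at h2
    simpa [Pi.single_apply, him.symm, hkm.symm, hlm.symm] using h2

/-- Differences in a class: every value of the coordinates is taken twice. -/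
theorem even5 {S : Set V} (hmax : MaxC 5 S) {L : Submodule ℝ V} {c : Fin 5 → V}
    (h : Quint S L c) {f f' : V} (hf : f ∈ Gs S) (hf' : f' ∈ Gs S) (hfL : f' ∉ L)
    {x : Fin 5 → ℝ} (hx : f - f' = ∑ i, x i • c i) (i : Fin 5) : ∃ k, k ≠ i ∧ x k = x i := by
  classical
  have hd : f - f' ∈ L := by
    rw [hx]
    exact L.sum_mem (fun i _ => L.smul_mem _ (h.memL i))
  have h1 := lift hmax h ![f, f'] (by
    intro k
    fin_cases k
    · exact hf
    · exact hf') ![1, -1] (by
    intro k
    fin_cases k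
    · exact one_ne_zero
    · exact neg_ne_zero.2 one_ne_zero) (by
    intro y hy
    rw [Fin.sum_univ_two] at hy
    have hy' : y 0 • f + y 1 • f' ∈ L := hy
    have h2 : (y 0 + y 1) • f' ∈ L := by
      have e : (y 0 + y 1) • f' = y 0 • f + y 1 • f' - y 0 • (f - f') := by
        rw [add_smul, smul_sub]
        abel
      rw [e]
      exact L.sub_mem hy' (L.smul_mem _ hd)
    have h3 : y 0 + y 1 = 0 := by
      by_contra hne
      apply hfL
      have := L.smul_mem (y 0 + y 1)⁻¹ h2
      rwa [smul_smul, inv_mul_cancel₀ hne, one_smul] at this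
    refine ⟨y 0, ?_⟩
    ext k
    fin_cases k
    · show y 0 = y 0 * 1
      ring
    · show y 1 = y 0 * -1
      linarith) x (by
    rw [Fin.sum_univ_two]
    show (1 : ℝ) • f + (-1 : ℝ) • f' = _
    rw [← hx, one_smul, neg_smul, one_smul, sub_eq_add_neg]) i
  rw [Fintype.card_fin] at h1
  obtain ⟨k, hk, hki⟩ := Finset.exists_mem_ne
    (by omega : 1 < (Finset.univ.filter (fun l => x l = x i)).card) i
  rw [Finset.mem_filter] at hk
  exact ⟨k, hki, hk.2⟩

/-- The shape of a nonconstant vector all of whose values are taken twice. -/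
theorem shape5 {x : Fin 5 → ℝ} (h : ∀ i, ∃ k, k ≠ i ∧ x k = x i) (hne : ∃ i j, x i ≠ x j) :
    ∃ i k, i ≠ k ∧ ∃ a b : ℝ, a ≠ b ∧ x i = a ∧ x k = a ∧ ∀ l, l ≠ i → l ≠ k → x l = b := by
  classical
  obtain ⟨i, j, hij⟩ := hne
  have hcard : ∀ i, 2 ≤ (Finset.univ.filter (fun l => x l = x i)).card := by
    intro i
    obtain ⟨k, hk, hki⟩ := h i
    have h1 : ({k, i} : Finset (Fin 5)) ⊆ Finset.univ.filter (fun l => x l = x i) := by
      intro l hl
      rw [Finset.mem_insert, Finset.mem_singleton] at hl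
      rw [Finset.mem_filter]
      rcases hl with rfl | rfl
      · exact ⟨Finset.mem_univ _, hki⟩
      · exact ⟨Finset.mem_univ _, rfl⟩
    have h2 := Finset.card_le_card h1
    rw [Finset.card_pair hk] at h2
    exact h2
  have hdis : ∀ i j, x i ≠ x j → Disjoint (Finset.univ.filter (fun l => x l = x i))
      (Finset.univ.filter (fun l => x l = x j)) := by
    intro i j hij
    rw [Finset.disjoint_left]
    intro l hl hl'
    rw [Finset.mem_filter] at hl hl'
    exact hij (hl.2.symm.trans hl'.2)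
  have hall : ∀ l, x l = x i ∨ x l = x j := by
    intro l
    by_contra hcon
    push Not at hcon
    have h1 : Disjoint (Finset.univ.filter (fun m => x m = x i) ∪
        Finset.univ.filter (fun m => x m = x j)) (Finset.univ.filter (fun m => x m = x l)) := by
      rw [Finset.disjoint_union_left]
      exact ⟨hdis _ _ (Ne.symm hcon.1), hdis _ _ (Ne.symm hcon.2)⟩
    have h2 := Finset.card_le_univ ((Finset.univ.filter (fun m => x m = x i) ∪
        Finset.univ.filter (fun m => x m = x j)) ∪ Finset.univ.filter (fun m => x m = x l))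
    rw [Finset.card_union_of_disjoint h1, Finset.card_union_of_disjoint (hdis _ _ hij),
      Fintype.card_fin] at h2
    have := hcard i
    have := hcard j
    have := hcard l
    omega
  have hsum : (Finset.univ.filter (fun m => x m = x i)).card +
      (Finset.univ.filter (fun m => x m = x j)).card ≤ 5 := by
    have h2 := Finset.card_le_univ (Finset.univ.filter (fun m => x m = x i) ∪
        Finset.univ.filter (fun m => x m = x j))
    rwa [Finset.card_union_of_disjoint (hdis _ _ hij), Fintype.card_fin] at h2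
  have key : ∀ i j, x i ≠ x j → (∀ l, x l = x i ∨ x l = x j) →
      (Finset.univ.filter (fun m => x m = x i)).card = 2 →
      ∃ i k, i ≠ k ∧ ∃ a b : ℝ, a ≠ b ∧ x i = a ∧ x k = a ∧ ∀ l, l ≠ i → l ≠ k → x l = b := by
    intro i j hij hall h2
    obtain ⟨p, q, hpq, hset⟩ := Finset.card_eq_two.1 h2
    have hmem : ∀ l, x l = x i ↔ l = p ∨ l = q := by
      intro l
      have h3 : l ∈ Finset.univ.filter (fun m => x m = x i) ↔ l ∈ ({p, q} : Finset (Fin 5)) := by
        rw [hset]
      rw [Finset.mem_filter, Finset.mem_insert, Finset.mem_singleton] at h3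
      exact ⟨fun h' => h3.1 ⟨Finset.mem_univ _, h'⟩, fun h' => (h3.2 h').2⟩
    refine ⟨p, q, hpq, x i, x j, hij, (hmem p).2 (Or.inl rfl), (hmem q).2 (Or.inr rfl), ?_⟩
    intro l hlp hlq
    rcases hall l with h' | h'
    · exfalso
      rcases (hmem l).1 h' with h'' | h''
      · exact hlp h''
      · exact hlq h''
    · exact h'
  have c1 := hcard i
  have c2 := hcard j
  by_cases h2 : (Finset.univ.filter (fun m => x m = x i)).card = 2
  · exact key i j hij hall h2
  · exact key j i (Ne.symm hij) (fun l => (hall l).symm) (by omega)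

theorem Quint.pair_eq {S : Set V} {L : Submodule ℝ V} {c : Fin 5 → V} (h : Quint S L c)
    {x : Fin 5 → ℝ} {i k : Fin 5} (hik : i ≠ k) {a b : ℝ} (hi : x i = a) (hk : x k = a)
    (hl : ∀ l, l ≠ i → l ≠ k → x l = b) : ∑ l, x l • c l = (a - b) • (c i + c k) := by
  classical
  have e1 : ∑ l, (x l - b) • c l = ∑ l, x l • c l := by
    have e2 : ∑ l, (x l - b) • c l = ∑ l, x l • c l - b • ∑ l, c l := by
      rw [Finset.smul_sum, ← Finset.sum_sub_distrib]
      exact Finset.sum_congr rfl (fun l _ => sub_smul _ _ _)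
    rw [e2, h.sum, smul_zero, sub_zero]
  rw [← e1, Finset.sum_eq_add i k hik]
  · rw [hi, hk, smul_add]
  · intro l _ hl'
    rw [hl l hl'.1 hl'.2, sub_self, zero_smul]
  · intro h'
    exact absurd (Finset.mem_univ i) h'
  · intro h'
    exact absurd (Finset.mem_univ k) h'

theorem Cls.notMem {S : Set V} {L T : Submodule ℝ V} {ι : Type} [Fintype ι] {F F' : ι → V}
    (hC : Cls S L T F F') (j : ι) : F j ∉ L := by
  classical
  intro hj
  have h1 := hC.ind (Pi.single j 1) (by
    rw [Finset.sum_eq_single j]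
    · rw [Pi.single_eq_same, one_smul]
      exact hj
    · intro l _ hl
      rw [Pi.single_eq_of_ne hl, zero_smul]
    · intro h'
      exact absurd (Finset.mem_univ j) h')
  have h2 := congrFun h1 j
  rw [Pi.single_eq_same] at h2
  exact one_ne_zero h2

theorem Cls.ind2 {S : Set V} {L T : Submodule ℝ V} {ι : Type} [Fintype ι] {F F' : ι → V}
    (hC : Cls S L T F F') {j j' : ι} (hj : j ≠ j') {s t : ℝ} (hst : s • F j + t • F j' ∈ L) :
    s = 0 ∧ t = 0 := by
  classical
  have h1 := hC.ind (Pi.single j s + Pi.single j' t) (by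
    have e : ∑ l, (Pi.single j s + Pi.single j' t : ι → ℝ) l • F l = s • F j + t • F j' := by
      simp only [Pi.add_apply, add_smul, Finset.sum_add_distrib, Pi.single_apply, ite_smul,
        zero_smul, Finset.sum_ite_eq', Finset.mem_univ, if_true]
    rw [e]
    exact hst)
  have h2 := congrFun h1 j
  have h3 := congrFun h1 j'
  rw [Pi.add_apply, Pi.single_eq_same, Pi.single_eq_of_ne hj, add_zero, Pi.zero_apply] at h2
  rw [Pi.add_apply, Pi.single_eq_same, Pi.single_eq_of_ne (Ne.symm hj), zero_add,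
    Pi.zero_apply] at h3
  exact ⟨h2, h3⟩

/-- Every class has a gate; with the coordinates. -/
theorem gate_coord {S : Set V} (hmax : MaxC 5 S) {L T : Submodule ℝ V} {c : Fin 5 → V}
    (h : Quint S L c) {ι : Type} [Fintype ι] {F F' : ι → V} (hC : Cls S L T F F') (j : ι) :
    ∃ (i k : Fin 5) (x : Fin 5 → ℝ) (a b : ℝ), i ≠ k ∧ a ≠ b ∧ x i = a ∧ x k = a ∧
      (∀ l, l ≠ i → l ≠ k → x l = b) ∧ F' j - F j = ∑ l, x l • c l := by
  obtain ⟨x, hx⟩ := h.span _ (hC.diff j)
  have hev := even5 hmax h (hC.memF' j) (hC.memF j) (hC.notMem j) hx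
  obtain ⟨i, k, hik, a, b, hab, h1, h2, h3⟩ := shape5 hev (by
    by_contra hcon
    push Not at hcon
    apply hC.ne j
    have : ∑ i, x i • c i = x 0 • ∑ i, c i := by
      rw [Finset.smul_sum]
      exact Finset.sum_congr rfl (fun i _ => by rw [hcon i 0])
    rw [this, h.sum, smul_zero] at hx
    exact sub_eq_zero.1 hx)
  exact ⟨i, k, x, a, b, hik, hab, h1, h2, h3, hx⟩

theorem gate_ex {S : Set V} (hmax : MaxC 5 S) {L T : Submodule ℝ V} {c : Fin 5 → V}
    (h : Quint S L c) {ι : Type} [Fintype ι] {F F' : ι → V} (hC : Cls S L T F F') (j : ι) :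
    ∃ i k : Fin 5, i ≠ k ∧ Gt c F F' j i k := by
  obtain ⟨i, k, x, a, b, hik, hab, h1, h2, h3, hx⟩ := gate_coord hmax h hC j
  exact ⟨i, k, hik, a - b, sub_ne_zero.2 hab, by rw [hx, h.pair_eq hik h1 h2 h3]⟩

end Pool.Agent.Helper29.SF
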