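import Pool.Agent.Helper29.SF.Gate

/-!
# One line per class, gates of different classes, elements in `L`
-/

namespace Pool.Agent.Helper29.SF

open Pool.Agent.Helper59.HD Pool.Agent.Helper59.HD5

variable {V : Type} [AddCommGroup V] [Module ℝ V]

theorem six_distinct (a b c d e f : Fin 5) (h : [a, b, c, d, e, f].Nodup) : False := by
  have := h.length_le_card
  simp at this

/-- Two different pairs sharing one index cannot be the shapes of two vectors whose difference
takes every value twice. -/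
theorem share_aux {x y : Fin 5 → ℝ} {i k k' : Fin 5} (hik : i ≠ k) (hik' : i ≠ k') (hkk' : k ≠ k')
    {a b a' b' : ℝ} (hab : a ≠ b) (hab' : a' ≠ b') (x1 : x i = a) (x2 : x k = a)
    (x3 : ∀ l, l ≠ i → l ≠ k → x l = b) (y1 : y i = a') (y2 : y k' = a')
    (y3 : ∀ l, l ≠ i → l ≠ k' → y l = b') (hz : ∀ i, ∃ k, k ≠ i ∧ x k - y k = x i - y i) :
    False := by
  have ha : a - a' = b - b' := by
    obtain ⟨l, hl, e⟩ := hz i
    rw [x1, y1] at e
    by_cases h1 : l = k
    · subst h1
      rw [x2, y3 _ (Ne.symm hik) hkk'] at e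
      exact absurd (by linarith) hab'
    by_cases h2 : l = k'
    · subst h2
      rw [y2, x3 _ (Ne.symm hik') (Ne.symm hkk')] at e
      exact absurd (by linarith) hab
    rw [x3 l hl h1, y3 l hl h2] at e
    linarith
  have hb : a - b' = b - a' := by
    obtain ⟨l, hl, e⟩ := hz k
    rw [x2, y3 k (Ne.symm hik) hkk'] at e
    by_cases h1 : l = i
    · subst h1
      rw [x1, y1] at e
      exact absurd (by linarith) hab'
    by_cases h2 : l = k'
    · subst h2
      rw [y2, x3 _ (Ne.symm hik') (Ne.symm hkk')] at e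
      linarith
    rw [x3 l h1 hl, y3 l h1 h2] at e
    exact absurd (by linarith) hab
  apply hab
  linarith

theorem disj_aux {x y : Fin 5 → ℝ} {i k i' k' : Fin 5} (hik : i ≠ k) (hik' : i' ≠ k')
    (h1 : i ≠ i') (h2 : i ≠ k') (h3 : k ≠ i') (h4 : k ≠ k')
    {a b a' b' : ℝ} (hab : a ≠ b) (hab' : a' ≠ b') (x1 : x i = a) (x2 : x k = a)
    (x3 : ∀ l, l ≠ i → l ≠ k → x l = b) (y1 : y i' = a') (y2 : y k' = a')
    (y3 : ∀ l, l ≠ i' → l ≠ k' → y l = b') (hz : ∀ i, ∃ k, k ≠ i ∧ x k - y k = x i - y i) :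
    False := by
  obtain ⟨m, m1, m2, m3, m4⟩ := ex_fifth i k i' k'
  obtain ⟨l, hl, e⟩ := hz m
  rw [x3 m m1 m2, y3 m m3 m4] at e
  by_cases q1 : l = i
  · subst q1
    rw [x1, y3 _ h1 h2] at e
    exact hab (by linarith)
  by_cases q2 : l = k
  · subst q2
    rw [x2, y3 _ h3 h4] at e
    exact hab (by linarith)
  by_cases q3 : l = i'
  · subst q3
    rw [y1, x3 _ (Ne.symm h1) (Ne.symm h3)] at e
    exact hab' (by linarith)
  by_cases q4 : l = k'
  · subst q4
    rw [y2, x3 _ (Ne.symm h2) (Ne.symm h4)] at e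
    exact hab' (by linarith)
  apply six_distinct i k i' k' m l
  simp only [List.nodup_cons, List.mem_cons, List.not_mem_nil, or_false, not_or, List.nodup_nil,
    not_false_eq_true, and_true]
  exact ⟨⟨hik, h1, h2, Ne.symm m1, Ne.symm q1⟩, ⟨h3, h4, Ne.symm m2, Ne.symm q2⟩,
    ⟨hik', Ne.symm m3, Ne.symm q3⟩, ⟨Ne.symm m4, Ne.symm q4⟩, Ne.symm hl⟩

/-- All differences in a class are on the line of the gate. -/
theorem gate_same {S : Set V} (hmax : MaxC 5 S) {L T : Submodule ℝ V} {c : Fin 5 → V}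
    (h : Quint S L c) {ι : Type} [Fintype ι] {F F' : ι → V} (hC : Cls S L T F F') (j : ι)
    {i k : Fin 5} (hik : i ≠ k) (hG : Gt c F F' j i k) {f : V} (hf : f ∈ Gs S)
    (hfj : f - F j ∈ L) : ∃ t : ℝ, f - F j = t • (c i + c k) := by
  classical
  by_cases hfF : f = F j
  · exact ⟨0, by rw [hfF, sub_self, zero_smul]⟩
  obtain ⟨a, ha, hG⟩ := hG
  obtain ⟨y, hy⟩ := h.span _ hfj
  have hev := even5 hmax h hf (hC.memF j) (hC.notMem j) hy
  obtain ⟨i', k', hik', a', b', hab', y1, y2, y3⟩ := shape5 hev (by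
    by_contra hcon
    push Not at hcon
    apply hfF
    have : ∑ i, y i • c i = y 0 • ∑ i, c i := by
      rw [Finset.smul_sum]
      exact Finset.sum_congr rfl (fun i _ => by rw [hcon i 0])
    rw [this, h.sum, smul_zero] at hy
    exact sub_eq_zero.1 hy)
  set x : Fin 5 → ℝ := fun l => if l = i ∨ l = k then a else 0 with hx
  have x1 : x i = a := by simp [hx]
  have x2 : x k = a := by simp [hx]
  have x3 : ∀ l, l ≠ i → l ≠ k → x l = 0 := by
    intro l hl1 hl2
    simp [hx, hl1, hl2]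
  have hxe : F' j - F j = ∑ l, x l • c l := by
    rw [hG, h.pair_eq hik x1 x2 x3, sub_zero]
  have hz : ∀ i, ∃ k, k ≠ i ∧ x k - y k = x i - y i := by
    apply even5 hmax h (x := fun l => x l - y l) (hC.memF' j) hf
    · intro hfL
      apply hC.notMem j
      have : F j = f - (f - F j) := by abel
      rw [this]
      exact L.sub_mem hfL hfj
    · have : F' j - f = (F' j - F j) - (f - F j) := by abel
      rw [this, hxe, hy, ← Finset.sum_sub_distrib]
      exact Finset.sum_congr rfl (fun l _ => by rw [sub_smul])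
  have hfin : (i' = i ∧ k' = k) ∨ (i' = k ∧ k' = i) := by
    by_contra hcon
    by_cases q1 : i' = i
    · by_cases q2 : k' = k
      · exact hcon (Or.inl ⟨q1, q2⟩)
      · subst q1
        exact share_aux hik hik' (Ne.symm q2) ha hab' x1 x2 x3 y1 y2 y3 hz
    by_cases q2 : i' = k
    · by_cases q3 : k' = i
      · exact hcon (Or.inr ⟨q2, q3⟩)
      · subst q2
        exact share_aux (Ne.symm hik) hik' (Ne.symm q3) ha hab' x2 x1
          (fun l h1 h2 => x3 l h2 h1) y1 y2 y3 hz
    by_cases q3 : k' = i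
    · subst q3
      exact share_aux hik (Ne.symm hik') (Ne.symm q2) ha hab' x1 x2 x3 y2 y1
        (fun l h1 h2 => y3 l h2 h1) hz
    by_cases q4 : k' = k
    · subst q4
      exact share_aux (Ne.symm hik) (Ne.symm hik') (Ne.symm q1) ha hab' x2 x1
        (fun l h1 h2 => x3 l h2 h1) y2 y1 (fun l h1 h2 => y3 l h2 h1) hz
    exact disj_aux hik hik' (Ne.symm q1) (Ne.symm q3) (Ne.symm q2) (Ne.symm q4) ha hab' x1 x2 x3
      y1 y2 y3 hz
  refine ⟨a' - b', ?_⟩
  rw [hy, h.pair_eq hik' y1 y2 y3]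
  rcases hfin with ⟨rfl, rfl⟩ | ⟨rfl, rfl⟩
  · rfl
  · rw [add_comm]

/-- Gates of different classes do not share exactly one index. -/
theorem gate_share {S : Set V} (hmax : MaxC 5 S) {L T : Submodule ℝ V} {c : Fin 5 → V}
    (h : Quint S L c) {ι : Type} [Fintype ι] {F F' : ι → V} (hC : Cls S L T F F') {j j' : ι}
    (hj : j ≠ j') {i k l : Fin 5} (hik : i ≠ k) (hil : i ≠ l) (hkl : k ≠ l)
    (hG : Gt c F F' j i k) (hG' : Gt c F F' j' i l) : False := by
  obtain ⟨a, ha, hG⟩ := hG
  obtain ⟨a', ha', hG'⟩ := hG'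
  obtain ⟨m, m1, m2, m3, -⟩ := ex_fifth i k l l
  have h1 := pairs hmax (L := L) (κ := Fin 2) (J := Fin 2) ![F' j, F' j'] ![F j, F j'] (by
    intro q
    fin_cases q
    · exact hC.memF' j
    · exact hC.memF' j') (by
    intro q
    fin_cases q
    · exact hC.memF j
    · exact hC.memF j') (by
    intro q
    fin_cases q
    · exact hC.diff j
    · exact hC.diff j') (by
    intro s hs
    rw [Fin.sum_univ_two] at hs
    have hs' : s 0 • F' j + s 1 • F' j' ∈ L := hs
    have h2 := hC.ind2 hj (s := s 0) (t := s 1) (by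
      have e : s 0 • F j + s 1 • F j' = s 0 • F' j + s 1 • F' j' - s 0 • (F' j - F j) -
          s 1 • (F' j' - F j') := by
        rw [smul_sub, smul_sub]
        abel
      rw [e]
      exact L.sub_mem (L.sub_mem hs' (L.smul_mem _ (hC.diff j))) (L.smul_mem _ (hC.diff j')))
    ext q
    fin_cases q
    · exact h2.1
    · exact h2.2) ![c k, c l] (by
    intro q
    fin_cases q
    · exact h.mem k
    · exact h.mem l) (by
    intro q
    fin_cases q
    · exact h.memL k
    · exact h.memL l) ![a⁻¹, -a'⁻¹] (by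
    intro q
    fin_cases q
    · exact inv_ne_zero ha
    · exact neg_ne_zero.2 (inv_ne_zero ha')) ![-1, 1] (by
    intro q
    fin_cases q
    · exact neg_ne_zero.2 one_ne_zero
    · exact one_ne_zero) (by
    rw [Fin.sum_univ_two, Fin.sum_univ_two]
    show a⁻¹ • (F' j - F j) + (-a'⁻¹) • (F' j' - F j') + ((-1 : ℝ) • c k + (1 : ℝ) • c l) = 0
    rw [hG, hG', neg_smul, smul_smul, smul_smul, inv_mul_cancel₀ ha, inv_mul_cancel₀ ha']
    simp only [one_smul, neg_smul]
    abel) (by
    intro s y hsy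
    rw [Fin.sum_univ_two, Fin.sum_univ_two] at hsy
    have hsy' : s 0 • (F' j - F j) + s 1 • (F' j' - F j') + (y 0 • c k + y 1 • c l) = 0 := hsy
    rw [hG, hG'] at hsy'
    obtain ⟨e1, e2, e3, -⟩ := h.ind4 hik hil (Ne.symm m1) hkl (Ne.symm m2) (Ne.symm m3)
      (r := s 0 * a + s 1 * a') (s := s 0 * a + y 0) (t := s 1 * a' + y 1) (u := 0) (by
      rw [← hsy']
      simp only [add_smul, smul_add, mul_smul, zero_smul]
      abel)
    refine ⟨s 0 * a, ?_, ?_⟩
    · ext q
      fin_cases q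
      · show s 0 = s 0 * a * a⁻¹
        field_simp
      · show s 1 = s 0 * a * -a'⁻¹
        have : s 1 = -(s 0 * a) / a' := by
          rw [eq_div_iff ha']
          linarith
        rw [this]
        ring
    · ext q
      fin_cases q
      · show y 0 = s 0 * a * -1
        linarith
      · show y 1 = s 0 * a * 1
        linarith)
  rw [Fintype.card_fin] at h1
  omega

/-- The elements in `L`: the main case. -/
theorem inside_aux {S : Set V} (hmax : MaxC 5 S) {L T : Submodule ℝ V} {c : Fin 5 → V}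
    (h : Quint S L c) {ι : Type} [Fintype ι] {F F' : ι → V} (hC : Cls S L T F F') (j : ι)
    {m m' n n' n'' : Fin 5} (q1 : m ≠ m') (q2 : m ≠ n) (q3 : m ≠ n') (q4 : m ≠ n'')
    (q5 : m' ≠ n) (q6 : m' ≠ n') (q7 : m' ≠ n'') (q8 : n ≠ n') (q9 : n ≠ n'') (q10 : n' ≠ n'')
    (hG : Gt c F F' j m m') {f : V} (hf : f ∈ Gs S) (hfL : f ∈ L) (x : Fin 5 → ℝ)
    (hx : f = (x m - x n) • c m + (x m' - x n) • c m' + (x n' - x n) • c n' +
      (x n'' - x n) • c n'') (x1 : x n ≠ x n') (x2 : x n ≠ x n'') (x3 : x n ≠ x m)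
    (x4 : x m ≠ x m') : False := by
  obtain ⟨a, ha, hG⟩ := hG
  have h1 := pairs hmax (L := L) (κ := Fin 1) (J := Fin 4) ![F' j] ![F j] (by
    intro q
    fin_cases q
    exact hC.memF' j) (by
    intro q
    fin_cases q
    exact hC.memF j) (by
    intro q
    fin_cases q
    exact hC.diff j) (by
    intro s hs
    rw [Fin.sum_univ_one] at hs
    have hs' : s 0 • F' j ∈ L := hs
    ext q
    fin_cases q
    show s 0 = 0
    by_contra hne
    apply hC.notMem j
    have := L.smul_mem (s 0)⁻¹ hs'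
    rw [smul_smul, inv_mul_cancel₀ hne, one_smul] at this
    have e : F j = F' j - (F' j - F j) := by abel
    rw [e]
    exact L.sub_mem this (hC.diff j)) ![f, c m', c n', c n''] (by
    intro q
    fin_cases q
    · exact hf
    · exact h.mem _
    · exact h.mem _
    · exact h.mem _) (by
    intro q
    fin_cases q
    · exact hfL
    · exact h.memL _
    · exact h.memL _
    · exact h.memL _) ![(x n - x m) / a] (by
    intro q
    fin_cases q
    exact div_ne_zero (sub_ne_zero.2 x3) ha)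
    ![1, -(x m' - x m), -(x n' - x n), -(x n'' - x n)] (by
    intro q
    fin_cases q
    · exact one_ne_zero
    · exact neg_ne_zero.2 (sub_ne_zero.2 (Ne.symm x4))
    · exact neg_ne_zero.2 (sub_ne_zero.2 (Ne.symm x1))
    · exact neg_ne_zero.2 (sub_ne_zero.2 (Ne.symm x2))) (by
    rw [Fin.sum_univ_one, Fin.sum_univ_four]
    show ((x n - x m) / a) • (F' j - F j) + ((1 : ℝ) • f + (-(x m' - x m)) • c m' +
      (-(x n' - x n)) • c n' + (-(x n'' - x n)) • c n'') = 0
    rw [hG, smul_smul, div_mul_cancel₀ _ ha, one_smul, hx]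
    have e : (x n - x m) • (c m + c m') + ((x m - x n) • c m + (x m' - x n) • c m' +
        (x n' - x n) • c n' + (x n'' - x n) • c n'' + (-(x m' - x m)) • c m' +
        (-(x n' - x n)) • c n' + (-(x n'' - x n)) • c n'') =
        ((x n - x m) + (x m - x n)) • c m + ((x n - x m) + (x m' - x n) + (-(x m' - x m))) • c m' +
        ((x n' - x n) + (-(x n' - x n))) • c n' + ((x n'' - x n) + (-(x n'' - x n))) • c n'' := by
      simp only [add_smul, smul_add]
      abel
    rw [e]
    have z1 : (x n - x m) + (x m - x n) = 0 := by ring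
    have z2 : (x n - x m) + (x m' - x n) + (-(x m' - x m)) = 0 := by ring
    have z3 : (x n' - x n) + (-(x n' - x n)) = 0 := by ring
    have z4 : (x n'' - x n) + (-(x n'' - x n)) = 0 := by ring
    rw [z1, z2, z3, z4, zero_smul, zero_smul, zero_smul, zero_smul, add_zero, add_zero,
      add_zero]) (by
    intro s y hsy
    rw [Fin.sum_univ_one, Fin.sum_univ_four] at hsy
    have hsy' : s 0 • (F' j - F j) + (y 0 • f + y 1 • c m' + y 2 • c n' + y 3 • c n'') = 0 := hsy
    rw [hG, hx] at hsy'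
    obtain ⟨e1, e2, e3, e4⟩ := h.ind4 q1 q3 q4 q6 q7 q10
      (r := s 0 * a + y 0 * (x m - x n)) (s := s 0 * a + y 0 * (x m' - x n) + y 1)
      (t := y 0 * (x n' - x n) + y 2) (u := y 0 * (x n'' - x n) + y 3) (by
      rw [← hsy']
      simp only [add_smul, smul_add, mul_smul]
      abel)
    refine ⟨y 0, ?_, ?_⟩
    · ext q
      fin_cases q
      show s 0 = y 0 * ((x n - x m) / a)
      rw [← mul_div_assoc, eq_div_iff ha]
      linarith
    · ext q
      fin_cases q
      · show y 0 = y 0 * 1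
        ring
      · show y 1 = y 0 * -(x m' - x m)
        linarith
      · show y 2 = y 0 * -(x n' - x n)
        linarith
      · show y 3 = y 0 * -(x n'' - x n)
        linarith)
  rw [Fintype.card_fin, Fintype.card_fin] at h1
  omega

theorem Gt.symm {ι : Type} {c : Fin 5 → V} {F F' : ι → V} {j : ι} {i k : Fin 5}
    (h : Gt c F F' j i k) : Gt c F F' j k i := by
  obtain ⟨a, ha, h⟩ := h
  exact ⟨a, ha, by rw [h, add_comm]⟩

/-- The elements in `L`. -/
theorem inside {S : Set V} (hmax : MaxC 5 S) {L T : Submodule ℝ V} {c : Fin 5 → V}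
    (h : Quint S L c) {ι : Type} [Fintype ι] {F F' : ι → V} (hC : Cls S L T F F') (j : ι)
    {m m' n n' n'' : Fin 5} (q1 : m ≠ m') (q2 : m ≠ n) (q3 : m ≠ n') (q4 : m ≠ n'')
    (q5 : m' ≠ n) (q6 : m' ≠ n') (q7 : m' ≠ n'') (q8 : n ≠ n') (q9 : n ≠ n'') (q10 : n' ≠ n'')
    (hG : Gt c F F' j m m') {f : V} (hf : f ∈ Gs S) (hfL : f ∈ L) (x : Fin 5 → ℝ)
    (hx : ∀ v : ℝ, f = (x m - v) • c m + (x m' - v) • c m' + (x n - v) • c n +
      (x n' - v) • c n' + (x n'' - v) • c n'') : x m = x m' ∨ (x n = x n' ∧ x n' = x n'') := by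
  by_contra hcon
  push Not at hcon
  obtain ⟨h1, h2⟩ := hcon
  -- one of the three indices takes its value once among them
  have key : ∀ p p' p'' : Fin 5, m ≠ p → m ≠ p' → m ≠ p'' → m' ≠ p → m' ≠ p' → m' ≠ p'' →
      p ≠ p' → p ≠ p'' → p' ≠ p'' →
      (∀ v : ℝ, f = (x m - v) • c m + (x m' - v) • c m' + (x p - v) • c p +
      (x p' - v) • c p' + (x p'' - v) • c p'') → x p ≠ x p' → x p ≠ x p'' → False := by
    intro p p' p'' r1 r2 r3 r4 r5 r6 r7 r8 r9 he y1 y2
    have he' := he (x p)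
    rw [sub_self, zero_smul, add_zero] at he'
    by_cases hm : x p = x m
    · apply inside_aux hmax h hC j (Ne.symm q1) r4 r5 r6 r1 r2 r3 r7 r8 r9 hG.symm hf hfL x
        (by rw [he']; abel) y1 y2 (fun h' => h1 (hm.symm.trans h')) (Ne.symm h1)
    · apply inside_aux hmax h hC j q1 r1 r2 r3 r4 r5 r6 r7 r8 r9 hG hf hfL x
        (by rw [he']) y1 y2 hm h1
  by_cases a1 : x n = x n'
  · have a2 : x n' ≠ x n'' := h2 a1
    apply key n'' n n' q4 q2 q3 q7 q5 q6 (Ne.symm q9) (Ne.symm q10) q8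
      (fun v => by rw [hx v]; abel) (fun h' => a2 (a1.symm.trans h'.symm)) (Ne.symm a2)
  · by_cases a2 : x n = x n''
    · apply key n' n n'' q3 q2 q4 q6 q5 q7 (Ne.symm q8) q10 q9
        (fun v => by rw [hx v]; abel) (Ne.symm a1) (fun h' => a1 (a2.trans h'.symm))
    · apply key n n' n'' q2 q3 q4 q5 q6 q7 q8 q9 q10 hx a1 a2

end Pool.Agent.Helper29.SF
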